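import Pool.Agent.Lib.Kuhn.Kuhn

/-!
A quasiconformal map between domains of `ℝ^n`, `n ≥ 3`, raising the Nagata dimension of a set
from at most `n - 1` to `n`: a shear over a comb domain.
-/

namespace Pool.Agent.Results.MP_a3803f_an.CombShear

open Set Filter Topology Metric
open scoped ENNReal

/-- `X` has, at every scale `s`, a cover by sets of diameter at most `c s` such that every subset
of `X` of diameter at most `s` meets at most `d + 1` members. -/
def NagataLE {M : Type} [MetricSpace M] (X : Set M) (d : ℕ) : Prop :=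
  ∃ c : ℝ, 0 < c ∧ ∀ s : ℝ, 0 < s → ∃ 𝒰 : Set (Set M),
    ⋃₀ 𝒰 = X ∧ (∀ U ∈ 𝒰, ediam U ≤ ENNReal.ofReal (c * s)) ∧
      ∀ A ⊆ X, ediam A ≤ ENNReal.ofReal s → {U ∈ 𝒰 | (U ∩ A).Nonempty}.encard ≤ d + 1

/-- The Nagata dimension: the least such `d`, and `⊤` if there is none. -/
noncomputable def nagataDim {M : Type} [MetricSpace M] (X : Set M) : ℕ∞ :=
  ⨅ (d : ℕ) (_ : NagataLE X d), (d : ℕ∞)

/-- The metric distortion of `f` at `x`. -/
noncomputable def distortion {M : Type} [MetricSpace M] (f : M → M) (x : M) : ℝ≥0∞ :=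
  limsup (fun r : ℝ => (⨆ y ∈ sphere x r, edist (f y) (f x)) / ⨅ y ∈ sphere x r, edist (f y) (f x))
    (𝓝[>] 0)

/-- `f` restricts to a quasiconformal homeomorphism of the domain `Ω` onto the domain `Ω'`
(metric definition). -/
def IsQuasiconformal {M : Type} [MetricSpace M] (f : M → M) (Ω Ω' : Set M) : Prop :=
  IsOpen Ω ∧ IsConnected Ω ∧ IsOpen Ω' ∧ IsConnected Ω' ∧
    (∃ h : Ω ≃ₜ Ω', ∀ x : Ω, (h x : M) = f x) ∧
    ∃ H : ℝ≥0∞, H < ⊤ ∧ ∀ x ∈ Ω, distortion f x ≤ H

variable {n : ℕ}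

lemma dist_le_of_coord {x y : EuclideanSpace ℝ (Fin n)} {b : ℝ} (hb : 0 ≤ b)
    (h : ∀ i, |x i - y i| ≤ b) : dist x y ≤ n * b := by
  rw [EuclideanSpace.dist_eq]
  refine Real.sqrt_le_iff.2 ⟨by positivity, ?_⟩
  calc ∑ i, dist (x i) (y i) ^ 2 ≤ ∑ _i : Fin n, b ^ 2 :=
        Finset.sum_le_sum fun i _ => pow_le_pow_left₀ dist_nonneg (h i) 2
    _ = n * b ^ 2 := by simp
    _ ≤ (n * b) ^ 2 := by
        rw [mul_pow]
        refine mul_le_mul_of_nonneg_right ?_ (by positivity)
        exact_mod_cast Nat.le_self_pow (by norm_num) n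

lemma coord_le_dist (x y : EuclideanSpace ℝ (Fin n)) (i : Fin n) : |x i - y i| ≤ dist x y :=
  PiLp.dist_apply_le x y i

/-- Brick covers: a set that varies only in the coordinates of `S` has dimension at most `|S|`. -/
lemma nagataLE_card (X : Set (EuclideanSpace ℝ (Fin n))) (S : Finset (Fin n))
    (hX : ∀ x ∈ X, ∀ y ∈ X, ∀ i, i ∉ S → x i = y i) : NagataLE X S.card := by
  classical
  set m := S.card with hm
  refine ⟨(n + 1) * (m + 1), by positivity, fun s hs => ?_⟩
  set a : EuclideanSpace ℝ (Fin n) → Fin n → ℤ := fun x i => ⌊x i / s⌋ with ha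
  set U : Fin (m + 1) → (Fin n → ℤ) → Set (EuclideanSpace ℝ (Fin n)) := fun k z =>
    {x | x ∈ X ∧ ∀ i ∈ S, (a x i - k) % (m + 1) ≠ 0 ∧ (a x i - k) / (m + 1) = z i} with hU
  have hm0 : (0 : ℤ) < m + 1 := by positivity
  refine ⟨{V | ∃ k z, V = U k z}, ?_, ?_, ?_⟩
  · refine Subset.antisymm ?_ fun x hx => ?_
    · rintro x ⟨_, ⟨k, z, rfl⟩, hx⟩; exact hx.1
    · have : ∃ k ∈ Finset.range (m + 1), k ∉ S.image fun i => (a x i % (m + 1)).toNat := by
        apply Finset.exists_mem_notMem_of_card_lt_card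
        rw [Finset.card_range]
        exact Nat.lt_succ_of_le Finset.card_image_le
      obtain ⟨k, hk, hk'⟩ := this
      have hk1 := Finset.mem_range.1 hk
      refine ⟨U ⟨k, hk1⟩ fun i => (a x i - k) / (m + 1), ⟨_, _, rfl⟩, hx, fun i hi => ⟨?_, rfl⟩⟩
      intro h0
      apply hk'
      refine Finset.mem_image.2 ⟨i, hi, ?_⟩
      have h1 : a x i % (m + 1) = (k : ℤ) % (m + 1) := Int.emod_eq_emod_iff_emod_sub_eq_zero.2 h0
      rw [h1, Int.emod_eq_of_lt (by positivity) (by exact_mod_cast hk1)]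
      simp
  · rintro _ ⟨k, z, rfl⟩
    refine ediam_le fun x hx y hy => ?_
    rw [edist_dist]
    refine ENNReal.ofReal_le_ofReal ((dist_le_of_coord (b := (m + 1) * s) (by positivity)
      fun i => ?_).trans (by nlinarith [mul_pos (show (0 : ℝ) < m + 1 by positivity) hs]))
    by_cases hi : i ∈ S
    · have h1 := (hx.2 i hi).2
      have h2 := (hy.2 i hi).2
      have e1 := Int.mul_ediv_add_emod (a x i - k) (m + 1)
      have e2 := Int.mul_ediv_add_emod (a y i - k) (m + 1)
      have b1 := Int.emod_nonneg (a x i - k) hm0.ne'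
      have b2 := Int.emod_nonneg (a y i - k) hm0.ne'
      have b3 := Int.emod_lt_of_pos (a x i - k) hm0
      have b4 := Int.emod_lt_of_pos (a y i - k) hm0
      rw [h1] at e1
      rw [h2] at e2
      have c1 : ((a x i : ℤ) : ℝ) ≤ a y i + m := by
        have : a x i ≤ a y i + m := by omega
        exact_mod_cast this
      have c2 : ((a y i : ℤ) : ℝ) ≤ a x i + m := by
        have : a y i ≤ a x i + m := by omega
        exact_mod_cast this
      have f1 := Int.floor_le (x i / s)
      have f2 := Int.floor_le (y i / s)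
      have f3 := Int.lt_floor_add_one (x i / s)
      have f4 := Int.lt_floor_add_one (y i / s)
      have : |x i / s - y i / s| ≤ m + 1 := by
        rw [abs_le]; simp only [ha] at c1 c2; constructor <;> linarith
      rw [← sub_div, abs_div, abs_of_pos hs, div_le_iff₀ hs] at this
      exact this
    · rw [hX x hx.1 y hy.1 i hi]; simp; positivity
  · intro A hA hAs
    have key : ∀ k z z', (U k z ∩ A).Nonempty → (U k z' ∩ A).Nonempty → U k z = U k z' := by
      rintro k z z' ⟨x, hx, hxA⟩ ⟨y, hy, hyA⟩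
      have hxy : dist x y ≤ s := by
        have := (edist_le_ediam_of_mem hxA hyA).trans hAs
        rw [edist_dist] at this
        exact (ENNReal.ofReal_le_ofReal_iff hs.le).1 this
      have hz : ∀ i ∈ S, z i = z' i := by
        intro i hi
        have h1 : |x i / s - y i / s| ≤ 1 := by
          rw [← sub_div, abs_div, abs_of_pos hs, div_le_iff₀ hs, one_mul]
          exact (coord_le_dist x y i).trans hxy
        have f1 := Int.floor_le (x i / s)
        have f2 := Int.floor_le (y i / s)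
        have f3 := Int.lt_floor_add_one (x i / s)
        have f4 := Int.lt_floor_add_one (y i / s)
        rw [abs_le] at h1
        have c1 : a x i < a y i + 2 := by
          have : ((a x i : ℤ) : ℝ) < a y i + 2 := by simp only [ha]; linarith
          exact_mod_cast this
        have c2 : a y i < a x i + 2 := by
          have : ((a y i : ℤ) : ℝ) < a x i + 2 := by simp only [ha]; linarith
          exact_mod_cast this
        have step : ∀ u : ℤ, (u + 1) % (m + 1) ≠ 0 → (u + 1) / (m + 1) = u / (m + 1) := by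
          intro u hu
          have e1 := Int.mul_ediv_add_emod u (m + 1)
          have b1 := Int.emod_nonneg u hm0.ne'
          have b3 := Int.emod_lt_of_pos u hm0
          have hne : u % (m + 1) + 1 ≠ m + 1 := by
            intro h
            apply hu
            have : u + 1 = (m + 1) * (u / (m + 1) + 1) := by linarith
            rw [this]; simp
          exact ((Int.ediv_emod_unique (r := u % (m + 1) + 1) hm0).2
            ⟨by linarith, by omega, by omega⟩).1
        rw [← (hx.2 i hi).2, ← (hy.2 i hi).2]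
        rcases lt_trichotomy (a x i) (a y i) with h | h | h
        · have e : a y i - k = a x i - k + 1 := by omega
          have := (hy.2 i hi).1
          rw [e] at this ⊢
          exact (step _ this).symm
        · rw [h]
        · have e : a x i - k = a y i - k + 1 := by omega
          have := (hx.2 i hi).1
          rw [e] at this ⊢
          exact step _ this
      ext w
      simp only [hU, mem_ofPred_eq]
      refine and_congr_right fun _ => forall₂_congr fun i hi => ?_
      rw [hz i hi]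
    have hsub : {V ∈ {V | ∃ k z, V = U k z} | (V ∩ A).Nonempty} ⊆
        (fun k => if h : ∃ z, (U k z ∩ A).Nonempty then U k h.choose else ∅) '' univ := by
      rintro _ ⟨⟨k, z, rfl⟩, h⟩
      have h' : ∃ z, (U k z ∩ A).Nonempty := ⟨z, h⟩
      refine ⟨k, trivial, ?_⟩
      simp only [h', dif_pos]
      exact key k _ _ h'.choose_spec h
    refine (encard_le_encard hsub).trans ((encard_image_le _ _).trans ?_)
    simp [encard_univ]

/-- Large approximate grids force full Nagata dimension. -/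
lemma le_of_grids (hn : 1 ≤ n) (X : Set (EuclideanSpace ℝ (Fin n)))
    (hX : ∀ m : ℕ, 2 ≤ m → ∃ p : (Fin n → ℤ) → EuclideanSpace ℝ (Fin n),
      (∀ v : Fin n → ℤ, (∀ k, 0 ≤ v k ∧ v k ≤ m - 1) → p v ∈ X) ∧
      (∀ u v : Fin n → ℤ, (∀ k, u k ≤ v k + 1) → (∀ k, v k ≤ u k + 1) →
        ∀ i, |p u i - p v i| ≤ 2 * m) ∧
      ∀ u v : Fin n → ℤ, (∀ k, 0 ≤ u k ∧ u k ≤ m - 1) → (∀ k, 0 ≤ v k ∧ v k ≤ m - 1) →
        ∀ i, u i = 0 → v i = m - 1 → ((m : ℝ) - 1) ^ 2 ≤ p v i - p u i)
    {d : ℕ} (hd : NagataLE X d) : n ≤ d := by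
  classical
  obtain ⟨c, hc, h⟩ := hd
  obtain ⟨m, hm⟩ := exists_nat_gt (2 * n * c + 2)
  have hm2 : 2 ≤ m := by
    have : (2 : ℝ) < m := by nlinarith [mul_nonneg (Nat.cast_nonneg (α := ℝ) n) hc.le]
    exact_mod_cast this.le
  have hn0 : (0 : ℝ) < n := by exact_mod_cast hn
  have hm0 : (0 : ℝ) < m := by exact_mod_cast (by omega : 0 < m)
  obtain ⟨p, hp1, hp2, hp3⟩ := hX m hm2
  obtain ⟨𝒰, hU1, hU2, hU3⟩ := h (n * (2 * m)) (by positivity)
  have hex : ∀ v : Fin n → ℤ, ∃ U, (∀ k, 0 ≤ v k ∧ v k ≤ m - 1) → U ∈ 𝒰 ∧ p v ∈ U := by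
    intro v
    by_cases hv : ∀ k, 0 ≤ v k ∧ v k ≤ m - 1
    · obtain ⟨U, h1, h2⟩ := (hU1 ▸ hp1 v hv : p v ∈ ⋃₀ 𝒰)
      exact ⟨U, fun _ => ⟨h1, h2⟩⟩
    · exact ⟨∅, fun h => absurd h hv⟩
  choose col hcol using hex
  obtain ⟨w, hw1, hw2, hw3⟩ := Pool.Agent.Lib.Kuhn.lebesgue hn (M := m - 1) (by omega) col (by
    intro u v hu hv i hui hvi e
    have h1 := (edist_le_ediam_of_mem (hcol v hv).2 (e ▸ (hcol u hu).2)).trans
      (hU2 _ (hcol v hv).1)
    rw [edist_dist, ENNReal.ofReal_le_ofReal_iff (by positivity)] at h1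
    have h2 := hp3 u v hu hv i hui hvi
    have h3 := (le_abs_self _).trans (coord_le_dist (p v) (p u) i)
    nlinarith)
  have h1 := hU3 (range fun j => p (w j)) (by rintro _ ⟨j, rfl⟩; exact hp1 _ (hw1 j)) (by
    refine ediam_le ?_
    rintro _ ⟨j, rfl⟩ _ ⟨j', rfl⟩
    rw [edist_dist]
    exact ENNReal.ofReal_le_ofReal (dist_le_of_coord (by positivity)
      (hp2 _ _ (hw2 j j') (hw2 j' j))))
  have h2 : range (fun j => col (w j)) ⊆ {U ∈ 𝒰 | (U ∩ range fun j => p (w j)).Nonempty} := by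
    rintro _ ⟨j, rfl⟩
    exact ⟨(hcol _ (hw1 j)).1, p (w j), (hcol _ (hw1 j)).2, j, rfl⟩
  have h3 := hw3.encard_range.trans ((encard_le_encard h2).trans h1)
  simp only [ENat.card_eq_coe_fintype_card, Fintype.card_fin] at h3
  have : n + 1 ≤ d + 1 := by exact_mod_cast h3
  omega

/-- The heights of the teeth of the comb. -/
def height (k : ℤ) : ℕ := k.toNat.sqrt.sqrt * (k.toNat % k.toNat.sqrt.sqrt)

lemma height_eq {m a b : ℕ} (ha : a < m) (hb : b < m) :
    height ((m ^ 4 + m * a + b : ℕ) : ℤ) = m * b := by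
  have h1 : (m ^ 4 + m * a + b).sqrt = m * m := by
    symm
    rw [Nat.eq_sqrt]
    constructor
    · nlinarith [Nat.zero_le (m * a)]
    · nlinarith [Nat.mul_le_mul_left m ha]
  rw [height, Int.toNat_natCast, h1, Nat.sqrt_eq]
  have : m ^ 4 + m * a + b = b + m * (m ^ 3 + a) := by ring
  rw [this, Nat.add_mul_mod_self_left, Nat.mod_eq_of_lt hb]

section comb
variable (i0 i1 il : Fin n)

/-- The comb domain. -/
def comb : Set (EuclideanSpace ℝ (Fin n)) := {x | x i1 < 0 ∨ ∀ k : ℤ, x i0 ≠ k}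

/-- The shearing function. -/
noncomputable def phi (x : EuclideanSpace ℝ (Fin n)) : ℝ := min (max (x i1) 0) (height ⌊x i0⌋)

/-- The shear. -/
noncomputable def shear (t : ℝ) (x : EuclideanSpace ℝ (Fin n)) : EuclideanSpace ℝ (Fin n) :=
  x + EuclideanSpace.single il (t * phi i0 i1 x)

lemma isOpen_comb : IsOpen (comb i0 i1) := by
  have h1 : IsOpen {x : EuclideanSpace ℝ (Fin n) | x i1 < 0} := isOpen_lt (by fun_prop) (by fun_prop)
  have h2 : IsOpen {x : EuclideanSpace ℝ (Fin n) | x i0 ∈ (range (Int.cast : ℤ → ℝ))ᶜ} :=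
    Int.isClosedEmbedding_coe_real.isClosed_range.isOpen_compl.preimage (by fun_prop)
  convert h1.union h2 using 1
  ext x; simp [comb, eq_comm]

lemma isConnected_comb (h01 : i0 ≠ i1) : IsConnected (comb i0 i1) := by
  have hlin : ∀ i : Fin n, IsLinearMap ℝ fun x : EuclideanSpace ℝ (Fin n) => x i :=
    fun i => ⟨fun _ _ => rfl, fun _ _ => rfl⟩
  have hH : IsPreconnected {x : EuclideanSpace ℝ (Fin n) | x i1 < 0} :=
    (convex_halfSpace_lt (hlin i1) 0).isPreconnected
  set z : EuclideanSpace ℝ (Fin n) := EuclideanSpace.single i1 (-1) with hz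
  have hzH : z i1 < 0 := by simp [hz]
  refine ⟨⟨z, Or.inl hzH⟩, isPreconnected_of_forall z fun y hy => ?_⟩
  rcases hy with hy | hy
  · exact ⟨_, fun x hx => Or.inl hx, hzH, hy, hH⟩
  · set k := ⌊y i0⌋ with hk
    have hS : IsPreconnected ({x : EuclideanSpace ℝ (Fin n) | (k : ℝ) < x i0} ∩
        {x | x i0 < k + 1}) :=
      ((convex_halfSpace_gt (hlin i0) _).inter (convex_halfSpace_lt (hlin i0) _)).isPreconnected
    have hU := hH.union (z + EuclideanSpace.single i0 ((k : ℝ) + 1 / 2)) (by simp [hz, h01.symm])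
      (by constructor <;> simp [hz, h01]; norm_num) hS
    refine ⟨_, ?_, Or.inl hzH, Or.inr ⟨?_, ?_⟩, hU⟩
    · rintro x (hx | ⟨h1, h2⟩)
      · exact Or.inl hx
      · refine Or.inr fun j hj => ?_
        simp only [mem_ofPred_eq, hj] at h1 h2
        have a1 : k < j := by exact_mod_cast h1
        have a2 : j < k + 1 := by exact_mod_cast h2
        omega
    · exact lt_of_le_of_ne (Int.floor_le _) (hy k).symm
    · exact Int.lt_floor_add_one (y i0)

lemma phi_local {x : EuclideanSpace ℝ (Fin n)} (hx : x ∈ comb i0 i1) :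
    ∀ᶠ y in 𝓝 x, |phi i0 i1 y - phi i0 i1 x| ≤ |y i1 - x i1| := by
  rcases hx with hx | hx
  · have : ∀ᶠ y : EuclideanSpace ℝ (Fin n) in 𝓝 x, y i1 < 0 :=
      (isOpen_lt (by fun_prop) (by fun_prop)).mem_nhds hx
    filter_upwards [this] with y hy
    simp [phi, hx.le, hy.le]
  · have h1 : ∀ᶠ y : EuclideanSpace ℝ (Fin n) in 𝓝 x, (⌊x i0⌋ : ℝ) < y i0 :=
      (isOpen_lt (by fun_prop) (by fun_prop)).mem_nhds
        (lt_of_le_of_ne (Int.floor_le _) (hx _).symm)
    have h2 : ∀ᶠ y : EuclideanSpace ℝ (Fin n) in 𝓝 x, y i0 < (⌊x i0⌋ : ℝ) + 1 :=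
      (isOpen_lt (by fun_prop) (by fun_prop)).mem_nhds (Int.lt_floor_add_one (x i0))
    filter_upwards [h1, h2] with y a1 a2
    have : ⌊y i0⌋ = ⌊x i0⌋ := Int.floor_eq_iff.2 ⟨a1.le, a2⟩
    simp only [phi, this]
    refine (abs_min_sub_min_le_max _ _ _ _).trans ?_
    simpa using abs_max_sub_max_le_abs (y i1) (x i1) 0

variable {i0 i1 il}

lemma shear_apply (t : ℝ) (x : EuclideanSpace ℝ (Fin n)) {i : Fin n} (h : i ≠ il) :
    shear i0 i1 il t x i = x i := by simp [shear, h]

lemma shear_mem (h0 : i0 ≠ il) (h1 : i1 ≠ il) (t : ℝ) {x : EuclideanSpace ℝ (Fin n)}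
    (hx : x ∈ comb i0 i1) : shear i0 i1 il t x ∈ comb i0 i1 := by
  simpa only [comb, mem_ofPred_eq, shear_apply t x h0, shear_apply t x h1] using hx

lemma shear_shear (h0 : i0 ≠ il) (h1 : i1 ≠ il) (t : ℝ) (x : EuclideanSpace ℝ (Fin n)) :
    shear i0 i1 il (-t) (shear i0 i1 il t x) = x := by
  have : phi i0 i1 (shear i0 i1 il t x) = phi i0 i1 x := by
    simp only [phi, shear_apply t x h0, shear_apply t x h1]
  rw [shear, this, shear]
  ext i
  by_cases hi : i = il <;> simp [hi]

lemma dist_shear_le {t : ℝ} (ht : |t| ≤ 1) (x y : EuclideanSpace ℝ (Fin n)) :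
    dist (shear i0 i1 il t y) (shear i0 i1 il t x) ≤
      dist y x + |phi i0 i1 y - phi i0 i1 x| := by
  refine (dist_add_add_le _ _ _ _).trans (add_le_add le_rfl ?_)
  rw [PiLp.dist_single_same, Real.dist_eq, ← mul_sub, abs_mul]
  exact mul_le_of_le_one_left (abs_nonneg _) ht

lemma shear_local {t : ℝ} (ht : |t| ≤ 1) {x : EuclideanSpace ℝ (Fin n)} (hx : x ∈ comb i0 i1) :
    ∀ᶠ y in 𝓝 x, dist (shear i0 i1 il t y) (shear i0 i1 il t x) ≤ 2 * dist y x := by
  filter_upwards [phi_local i0 i1 hx] with y hy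
  linarith [dist_shear_le (i0 := i0) (i1 := i1) (il := il) ht x y, coord_le_dist y x i1]

lemma shear_local' (h0 : i0 ≠ il) (h1 : i1 ≠ il) {x : EuclideanSpace ℝ (Fin n)}
    (hx : x ∈ comb i0 i1) :
    ∀ᶠ y in 𝓝 x, dist y x ≤ 2 * dist (shear i0 i1 il 1 y) (shear i0 i1 il 1 x) := by
  filter_upwards [phi_local i0 i1 hx] with y hy
  have a := dist_shear_le (i0 := i0) (i1 := i1) (il := il) (t := -1) (by simp)
    (shear i0 i1 il 1 x) (shear i0 i1 il 1 y)
  have b := coord_le_dist (shear i0 i1 il 1 y) (shear i0 i1 il 1 x) i1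
  rw [shear_shear h0 h1, shear_shear h0 h1] at a
  simp only [phi, shear_apply _ _ h0, shear_apply _ _ h1] at a b hy
  linarith

lemma continuousAt_shear {t : ℝ} (ht : |t| ≤ 1) {x : EuclideanSpace ℝ (Fin n)}
    (hx : x ∈ comb i0 i1) : ContinuousAt (shear i0 i1 il t) x := by
  rw [ContinuousAt, tendsto_iff_dist_tendsto_zero]
  refine squeeze_zero' (Eventually.of_forall fun _ => dist_nonneg) (shear_local ht hx) ?_
  have : Continuous fun y : EuclideanSpace ℝ (Fin n) => 2 * dist y x := by fun_prop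
  simpa using this.tendsto x

lemma qc_shear (h01 : i0 ≠ i1) (h0 : i0 ≠ il) (h1 : i1 ≠ il) :
    IsQuasiconformal (shear i0 i1 il 1) (comb i0 i1) (comb i0 i1) := by
  refine ⟨isOpen_comb _ _, isConnected_comb _ _ h01, isOpen_comb _ _, isConnected_comb _ _ h01,
    ⟨{ toFun := fun x => ⟨_, shear_mem h0 h1 1 x.2⟩
       invFun := fun x => ⟨_, shear_mem h0 h1 (-1) x.2⟩
       left_inv := fun x => Subtype.ext (shear_shear h0 h1 1 x)
       right_inv := fun x => Subtype.ext (by simpa using shear_shear h0 h1 (-1) x)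
       continuous_toFun := Continuous.subtype_mk (continuousOn_iff_continuous_domRestrict.1
         fun x hx => (continuousAt_shear (by simp) hx).continuousWithinAt) _
       continuous_invFun := Continuous.subtype_mk (continuousOn_iff_continuous_domRestrict.1
         fun x hx => (continuousAt_shear (by simp) hx).continuousWithinAt) _ },
      fun _ => rfl⟩, 4, by simp, fun x hx => ?_⟩
  obtain ⟨ε, hε, h⟩ := Metric.eventually_nhds_iff.1
    ((shear_local (il := il) (t := 1) (by simp) hx).and (shear_local' h0 h1 hx))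
  refine limsup_le_of_le (by isBoundedDefault) ?_
  filter_upwards [Ioo_mem_nhdsGT hε] with r hr
  refine ENNReal.div_le_of_le_mul (le_trans (b := ENNReal.ofReal (2 * r)) ?_ ?_)
  · refine iSup₂_le fun y hy => ?_
    have hy' : dist y x = r := hy
    rw [edist_dist, ← hy']
    exact ENNReal.ofReal_le_ofReal (h (hy' ▸ hr.2)).1
  · have e : ENNReal.ofReal (2 * r) = 4 * ENNReal.ofReal (r / 2) := by
      rw [← ENNReal.ofReal_ofNat, ← ENNReal.ofReal_mul (by norm_num)]; congr 1; ring
    rw [e]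
    gcongr
    refine le_iInf₂ fun y hy => ?_
    have hy' : dist y x = r := hy
    rw [edist_dist]
    refine ENNReal.ofReal_le_ofReal ?_
    linarith [(h (hy' ▸ hr.2)).2]

end comb

theorem result (n : ℕ) (hn : 3 ≤ n) :
    ∃ (Ω Ω' : Set (EuclideanSpace ℝ (Fin n)))
      (f : EuclideanSpace ℝ (Fin n) → EuclideanSpace ℝ (Fin n)) (E : Set (EuclideanSpace ℝ (Fin n))),
      IsQuasiconformal f Ω Ω' ∧ E ⊆ Ω ∧ nagataDim E ≤ ((n - 1 : ℕ) : ℕ∞) ∧
        nagataDim (f '' E) = n := by
  classical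
  set i0 : Fin n := ⟨0, by omega⟩
  set i1 : Fin n := ⟨1, by omega⟩
  set il : Fin n := ⟨2, by omega⟩
  have h01 : i0 ≠ i1 := by simp [i0, i1]
  have h0 : i0 ≠ il := by simp [i0, il]
  have h1 : i1 ≠ il := by simp [i1, il]
  refine ⟨comb i0 i1, comb i0 i1, shear i0 i1 il 1, {x ∈ comb i0 i1 | x il = 0},
    qc_shear h01 h0 h1, fun x hx => hx.1, ?_, le_antisymm ?_ ?_⟩
  · have := nagataLE_card {x ∈ comb i0 i1 | x il = 0} (Finset.univ.erase il) (by
      intro x hx y hy i hi
      have : i = il := by simpa using hi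
      rw [this, hx.2, hy.2])
    rw [Finset.card_erase_of_mem (Finset.mem_univ _), Finset.card_univ, Fintype.card_fin] at this
    exact iInf₂_le _ this
  · have := nagataLE_card (shear i0 i1 il 1 '' {x ∈ comb i0 i1 | x il = 0}) Finset.univ (by simp)
    rw [Finset.card_univ, Fintype.card_fin] at this
    exact iInf₂_le _ this
  · refine le_iInf₂ fun d hd => Nat.cast_le.2 (le_of_grids (by omega) _ (fun m hm => ?_) hd)
    have hm' : (2 : ℝ) ≤ m := by exact_mod_cast hm
    refine ⟨fun v => WithLp.toLp 2 fun i => (m : ℝ) * v i +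
      (if i = i0 then (m : ℝ) ^ 4 + v il + 1 / 2 else if i = i1 then (m : ℝ) ^ 2 else 0), ?_, ?_, ?_⟩
    · intro v hv
      obtain ⟨a, ha⟩ := Int.eq_ofNat_of_zero_le (hv i0).1
      obtain ⟨b, hb⟩ := Int.eq_ofNat_of_zero_le (hv il).1
      have ha' : a < m := by have := (hv i0).2; omega
      have hb' : b < m := by have := (hv il).2; omega
      set x : EuclideanSpace ℝ (Fin n) := WithLp.toLp 2 fun i => if i = il then 0 else
        (m : ℝ) * v i + (if i = i0 then (m : ℝ) ^ 4 + v il + 1 / 2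
          else if i = i1 then (m : ℝ) ^ 2 else 0) with hx
      have hx0 : x i0 = ((m ^ 4 + m * a + b : ℕ) : ℤ) + 1 / 2 := by
        simp [hx, h0, ha, hb]; ring
      have hfl : ⌊x i0⌋ = ((m ^ 4 + m * a + b : ℕ) : ℤ) := by
        rw [Int.floor_eq_iff, hx0]; constructor <;> linarith
      have hx1 : x i1 = m * v i1 + (m : ℝ) ^ 2 := by simp [hx, h1, h01.symm]
      have hphi : phi i0 i1 x = m * b := by
        rw [phi, hfl, height_eq ha' hb', hx1]
        have e1 : (0 : ℝ) ≤ v i1 := by exact_mod_cast (hv i1).1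
        have e2 : (b : ℝ) ≤ m := by exact_mod_cast hb'.le
        push_cast
        exact min_eq_right (le_max_of_le_left (by nlinarith))
      refine ⟨x, ⟨Or.inr fun k hk => ?_, by simp [hx]⟩, ?_⟩
      · have := Int.floor_intCast (R := ℝ) k
        rw [← hk, hfl] at this
        rw [hx0, this] at hk
        linarith
      · ext i
        by_cases hi : i = il
        · subst hi; rw [shear, hphi]; simp [hx, h0.symm, h1.symm, hb]
        · rw [shear_apply _ _ hi]; simp [hx, hi]
    · intro u v h2 h3 i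
      have a1 : (u i : ℝ) ≤ v i + 1 := by exact_mod_cast h2 i
      have a2 : (v i : ℝ) ≤ u i + 1 := by exact_mod_cast h3 i
      have a3 : (u il : ℝ) ≤ v il + 1 := by exact_mod_cast h2 il
      have a4 : (v il : ℝ) ≤ u il + 1 := by exact_mod_cast h3 il
      rw [abs_le]
      simp only
      split_ifs <;> constructor <;> nlinarith
    · intro u v hu hv i h2 h3
      have a1 : (u i : ℝ) = 0 := by exact_mod_cast h2
      have a2 : (v i : ℝ) = m - 1 := by exact_mod_cast h3
      have a3 : (u il : ℝ) ≤ m - 1 := by exact_mod_cast (hu il).2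
      have a4 : (0 : ℝ) ≤ v il := by exact_mod_cast (hv il).1
      simp only [a1, a2]
      split_ifs <;> nlinarith

end Pool.Agent.Results.MP_a3803f_an.CombShear
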